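import Pool.Agent.R598.PM.KZ

set_option autoImplicit false

namespace Pool.Agent.Results.MP_5ed4ef_gt.LocCompDenumerableRemainder

open Pool.Agent.W868 Pool.Agent.R598.PM

/-- There is a countable transitive model `M` of ZF with a topological space `(X, σ)` that is, in
`M`, Hausdorff and locally compact and has a denumerable remainder, but the space `ω ∪ {ω}` is
not a remainder of it. -/
theorem result : ∃ M : Set ZFSet.{0}, M.Countable ∧ IsZF M ∧ ∃ X ∈ M, ∃ σ ∈ M,
    IsTop M X σ ∧ IsHaus X σ ∧ LocComp M X σ ∧ DenRem M X σ ∧ ¬ NInfRem M X σ := by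
  obtain ⟨M, h1, h2, D, hD, σ, hσ, -, -, h3, h4, h5, h6, h7⟩ := KM.main
  exact ⟨M, h1, h2, D, hD, σ, hσ, h3, h4, h5, h6, h7⟩

end Pool.Agent.Results.MP_5ed4ef_gt.LocCompDenumerableRemainder
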